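import Mathlib
import Pool.Agent.H148.WalkHomotopy

/-!
# The minimum-degree threshold for a cyclic discrete fundamental group of triangle-free graphs

`δ_cyc(K₃) = 1/3`.
-/

set_option autoImplicit false

namespace Pool.Agent.Results.MP_331a15_co.TriangleThreshold

open SimpleGraph Pool.Agent.H148.WalkHomotopy

/-- The real numbers `α ≥ 0` such that every finite `H`-free graph `G` with minimum degree
`δ(G) > α |G|` has cyclic discrete fundamental group at every vertex. -/
def admissible {W : Type} (H : SimpleGraph W) : Set ℝ :=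
  {α | 0 ≤ α ∧ ∀ (V : Type) [Fintype V] (G : SimpleGraph V) [DecidableRel G.Adj],
    H.Free G → α * Fintype.card V < G.minDegree → ∀ v : V, IsCyclic (Pi1 G v)}

/-- `δ_cyc(H)`. -/
noncomputable def deltaCyc {W : Type} (H : SimpleGraph W) : ℝ := sInf (admissible H)

/-! ### The upper bound -/

section upper

variable {V : Type} [Fintype V] {G : SimpleGraph V} [DecidableRel G.Adj]

lemma pigeon (hd : ∀ v, Fintype.card V < 3 * G.degree v) (t : Fin 6 → V) :
    ∃ y, 3 ≤ ∑ i, if G.Adj (t i) y then 1 else 0 := by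
  by_contra hcon
  push Not at hcon
  have h1 : ∑ y : V, ∑ i, (if G.Adj (t i) y then 1 else 0) ≤ ∑ _y : V, 2 :=
    Finset.sum_le_sum fun y _ => Nat.lt_succ_iff.1 (hcon y)
  rw [Finset.sum_comm] at h1
  have h2 : ∀ i, ∑ y : V, (if G.Adj (t i) y then 1 else 0) = G.degree (t i) := by
    intro i
    rw [← Finset.card_filter, ← G.card_neighborFinset_eq_degree]
    congr 1
    ext y
    simp
  simp only [h2, Finset.sum_const, Finset.card_univ, smul_eq_mul] at h1
  have h3 : ∑ _i : Fin 6, Fintype.card V < ∑ i, 3 * G.degree (t i) :=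
    Finset.sum_lt_sum_of_nonempty Finset.univ_nonempty fun i _ => hd (t i)
  rw [← Finset.mul_sum] at h3
  simp only [Finset.sum_const, Finset.card_univ, smul_eq_mul, Fintype.card_fin] at h3
  omega

/-- Of three vertices `u, v, w` with `v w` an edge, `u` has a common neighbour with one of the
other two. -/
lemma common (tf : ∀ a b c, G.Adj a b → G.Adj b c → ¬ G.Adj a c)
    (hd : ∀ v, Fintype.card V < 3 * G.degree v) {v w : V} (u : V) (h : G.Adj v w) :
    (∃ z, G.Adj u z ∧ G.Adj z v) ∨ (∃ z, G.Adj u z ∧ G.Adj z w) := by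
  classical
  by_contra hcon
  push Not at hcon
  obtain ⟨h1, h2⟩ := hcon
  have d1 : Disjoint (G.neighborFinset u) (G.neighborFinset v) := by
    rw [Finset.disjoint_left]
    intro z hz hz'
    rw [mem_neighborFinset] at hz hz'
    exact h1 z hz hz'.symm
  have d2 : Disjoint (G.neighborFinset u ∪ G.neighborFinset v) (G.neighborFinset w) := by
    rw [Finset.disjoint_left]
    intro z hz hz'
    rw [Finset.mem_union, mem_neighborFinset, mem_neighborFinset] at hz
    rw [mem_neighborFinset] at hz'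
    rcases hz with hz | hz
    · exact h2 z hz hz'.symm
    · exact tf v w z h hz' hz
  have h3 : (G.neighborFinset u ∪ G.neighborFinset v ∪ G.neighborFinset w).card ≤
      Fintype.card V := Finset.card_le_univ _
  rw [Finset.card_union_of_disjoint d2, Finset.card_union_of_disjoint d1] at h3
  simp only [card_neighborFinset_eq_degree] at h3
  have := hd u
  have := hd v
  have := hd w
  omega

lemma pick1 (A B C D C' B' : Prop) [Decidable A] [Decidable B] [Decidable C] [Decidable D]
    [Decidable C'] [Decidable B']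
    (h : 3 ≤ (if A then 1 else 0) + (if B then 1 else 0) + (if C then 1 else 0) +
      (if D then 1 else 0) + (if C' then 1 else 0) + (if B' then 1 else 0))
    (h1 : ¬ (A ∧ B)) (h2 : ¬ (B ∧ C)) (h3 : ¬ (C ∧ D)) (h4 : ¬ (D ∧ C')) (h5 : ¬ (C' ∧ B'))
    (h6 : ¬ (B' ∧ A)) : (A ∧ C ∧ C') ∨ (B ∧ D ∧ B') := by
  by_cases A <;> by_cases B <;> by_cases C <;> by_cases D <;> by_cases C' <;> by_cases B' <;>
    simp_all

lemma pick2 (A B C A' B' C' : Prop) [Decidable A] [Decidable B] [Decidable C] [Decidable A']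
    [Decidable B'] [Decidable C']
    (h : 3 ≤ (if A then 1 else 0) + (if B then 1 else 0) + (if C then 1 else 0) +
      (if A' then 1 else 0) + (if B' then 1 else 0) + (if C' then 1 else 0))
    (h1 : ¬ (A ∧ B)) (h2 : ¬ (B ∧ C)) (h3 : ¬ (A' ∧ B')) (h4 : ¬ (B' ∧ C')) :
    (A ∧ C ∧ (A' ∨ B' ∨ C')) ∨ (A' ∧ C' ∧ (A ∨ B ∨ C)) := by
  by_cases A <;> by_cases B <;> by_cases C <;> by_cases A' <;> by_cases B' <;> by_cases C' <;>
    simp_all

/-- Two walks of length three with the same end points are homotopic. -/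
lemma hex (tf : ∀ a b c, G.Adj a b → G.Adj b c → ¬ G.Adj a c)
    (hd : ∀ v, Fintype.card V < 3 * G.degree v) {a b c d b' c' v : V}
    (h1 : G.Adj a b) (h2 : G.Adj b c) (h3 : G.Adj c d)
    (h1' : G.Adj a b') (h2' : G.Adj b' c') (h3' : G.Adj c' d) (q : G.Walk d v) :
    Homotopic (Walk.cons h1 (Walk.cons h2 (Walk.cons h3 q)))
      (Walk.cons h1' (Walk.cons h2' (Walk.cons h3' q))) := by
  obtain ⟨y, hy⟩ := pigeon hd ![a, b, c, d, c', b']
  simp only [Fin.sum_univ_six] at hy
  have hp := pick1 (G.Adj a y) (G.Adj b y) (G.Adj c y) (G.Adj d y) (G.Adj c' y) (G.Adj b' y) hy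
    (fun h => tf a b y h1 h.2 h.1) (fun h => tf b c y h2 h.2 h.1) (fun h => tf c d y h3 h.2 h.1)
    (fun h => tf c' d y h3' h.1 h.2) (fun h => tf b' c' y h2' h.1 h.2)
    (fun h => tf a b' y h1' h.1 h.2)
  rcases hp with ⟨ha, hc, hc'⟩ | ⟨hb, hd', hb'⟩
  · refine (Homotopic.sub h1 h2 ha hc.symm _).trans ?_
    refine (Homotopic.cons ha (Homotopic.sub hc.symm h3 hc'.symm h3' q)).trans ?_
    exact Homotopic.sub ha hc'.symm h1' h2' _
  · refine (Homotopic.cons h1 (Homotopic.sub h2 h3 hb hd'.symm q)).trans ?_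
    refine (Homotopic.sub h1 hb h1' hb' _).trans ?_
    exact Homotopic.cons h1' (Homotopic.sub hb' hd'.symm h2' h3' q)

/-- The closed walk `x a b c d x`. -/
def five {x a b c d : V} (h1 : G.Adj x a) (h2 : G.Adj a b) (h3 : G.Adj b c) (h4 : G.Adj c d)
    (h5 : G.Adj d x) : G.Walk x x :=
  Walk.cons h1 (Walk.cons h2 (Walk.cons h3 (Walk.cons h4 (Walk.cons h5 Walk.nil))))

omit [Fintype V] [DecidableRel G.Adj] in
lemma five_reverse {x a b c d : V} (h1 : G.Adj x a) (h2 : G.Adj a b) (h3 : G.Adj b c)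
    (h4 : G.Adj c d) (h5 : G.Adj d x) :
    (five h1 h2 h3 h4 h5).reverse = five h5.symm h4.symm h3.symm h2.symm h1.symm := by
  simp [five]

/-- One half of the comparison of two closed walks of length five with the same first edge. -/
lemma five_aux (tf : ∀ a b c, G.Adj a b → G.Adj b c → ¬ G.Adj a c)
    (hd : ∀ v, Fintype.card V < 3 * G.degree v) {x z v3 v4 v5 w3 w4 w5 y : V}
    (hxz : G.Adj x z) (h2 : G.Adj z v3) (h3 : G.Adj v3 v4) (h4 : G.Adj v4 v5) (h5 : G.Adj v5 x)
    (g2 : G.Adj z w3) (g3 : G.Adj w3 w4) (g4 : G.Adj w4 w5) (g5 : G.Adj w5 x)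
    (y3 : G.Adj v3 y) (y5 : G.Adj v5 y) (hy : G.Adj w3 y ∨ G.Adj w4 y ∨ G.Adj w5 y) :
    Homotopic (five hxz h2 h3 h4 h5) (five hxz g2 g3 g4 g5) ∨
      Homotopic (five hxz h2 h3 h4 h5) (five hxz g2 g3 g4 g5).reverse := by
  have hC : Homotopic (five hxz h2 h3 h4 h5) (five hxz h2 y3 y5.symm h5) :=
    Homotopic.cons _ (Homotopic.cons _ (Homotopic.sub h3 h4 y3 y5.symm _))
  rcases hy with hy | hy | hy
  · left
    refine hC.trans ?_
    refine (Homotopic.cons _ (Homotopic.sub h2 y3 g2 hy _)).trans ?_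
    exact Homotopic.cons _ (Homotopic.cons _ (hex tf hd hy y5.symm h5 g3 g4 g5 _))
  · right
    refine hC.trans ?_
    rw [five_reverse]
    refine (hex tf hd hxz h2 y3 g5.symm g4.symm hy _).trans ?_
    exact Homotopic.cons _ (Homotopic.cons _
      (hex tf hd hy y5.symm h5 g3.symm g2.symm hxz.symm _))
  · left
    refine hC.trans ?_
    refine (Homotopic.cons _ (Homotopic.cons _ (Homotopic.cons _
      (Homotopic.sub y5.symm h5 hy.symm g5 _)))).trans ?_
    exact Homotopic.cons _ (hex tf hd h2 y3 hy.symm g2 g3 g4 _)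

/-- Two closed walks of length five at `x` with the same first edge are equal or inverse in the
fundamental group. -/
lemma five_edge (tf : ∀ a b c, G.Adj a b → G.Adj b c → ¬ G.Adj a c)
    (hd : ∀ v, Fintype.card V < 3 * G.degree v) {x z v3 v4 v5 w3 w4 w5 : V}
    (hxz : G.Adj x z) (h2 : G.Adj z v3) (h3 : G.Adj v3 v4) (h4 : G.Adj v4 v5) (h5 : G.Adj v5 x)
    (g2 : G.Adj z w3) (g3 : G.Adj w3 w4) (g4 : G.Adj w4 w5) (g5 : G.Adj w5 x) :
    Pi1.mk (five hxz h2 h3 h4 h5) = Pi1.mk (five hxz g2 g3 g4 g5) ∨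
      Pi1.mk (five hxz h2 h3 h4 h5) = (Pi1.mk (five hxz g2 g3 g4 g5))⁻¹ := by
  obtain ⟨y, hy⟩ := pigeon hd ![v3, v4, v5, w3, w4, w5]
  simp only [Fin.sum_univ_six] at hy
  have hp := pick2 (G.Adj v3 y) (G.Adj v4 y) (G.Adj v5 y) (G.Adj w3 y) (G.Adj w4 y) (G.Adj w5 y)
    hy (fun h => tf v3 v4 y h3 h.2 h.1) (fun h => tf v4 v5 y h4 h.2 h.1)
    (fun h => tf w3 w4 y g3 h.2 h.1) (fun h => tf w4 w5 y g4 h.2 h.1)
  rcases hp with ⟨ha, hb, hc⟩ | ⟨ha, hb, hc⟩
  · rcases five_aux tf hd hxz h2 h3 h4 h5 g2 g3 g4 g5 ha hb hc with h | h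
    · exact Or.inl (Pi1.mk_eq_mk.2 h)
    · exact Or.inr (Pi1.mk_eq_mk.2 h)
  · rcases five_aux tf hd hxz g2 g3 g4 g5 h2 h3 h4 h5 ha hb hc with h | h
    · exact Or.inl (Pi1.mk_eq_mk.2 h.symm)
    · right
      have := Pi1.mk_eq_mk.2 h
      rw [this, ← Pi1.mk_inv, inv_inv]

/-- Any two closed walks of length five at `x` are equal or inverse in the fundamental group. -/
lemma five_five (tf : ∀ a b c, G.Adj a b → G.Adj b c → ¬ G.Adj a c)
    (hd : ∀ v, Fintype.card V < 3 * G.degree v) {x a b c d a' b' c' d' : V}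
    (h1 : G.Adj x a) (h2 : G.Adj a b) (h3 : G.Adj b c) (h4 : G.Adj c d) (h5 : G.Adj d x)
    (g1 : G.Adj x a') (g2 : G.Adj a' b') (g3 : G.Adj b' c') (g4 : G.Adj c' d')
    (g5 : G.Adj d' x) :
    Pi1.mk (five g1 g2 g3 g4 g5) = Pi1.mk (five h1 h2 h3 h4 h5) ∨
      Pi1.mk (five g1 g2 g3 g4 g5) = (Pi1.mk (five h1 h2 h3 h4 h5))⁻¹ := by
  rcases common tf hd a' h3 with ⟨p, hp1, hp2⟩ | ⟨p, hp1, hp2⟩
  · -- `D = x a' p b a`
    have e1 := five_edge tf hd g1 g2 g3 g4 g5 hp1 hp2 h2.symm h1.symm
    have e2 := five_edge tf hd h1 h2 hp2.symm hp1.symm g1.symm h2 h3 h4 h5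
    have e3 : Pi1.mk (five g1 hp1 hp2 h2.symm h1.symm) =
        (Pi1.mk (five h1 h2 hp2.symm hp1.symm g1.symm))⁻¹ := by
      rw [Pi1.mk_inv, five_reverse]
    rw [e3, inv_inv] at e1
    rcases e1 with e1 | e1 <;> rcases e2 with e2 | e2 <;> rw [e1, e2] <;> simp
  · -- `D = x a' p c d`
    have e1 := five_edge tf hd g1 g2 g3 g4 g5 hp1 hp2 h4 h5
    have e2 := five_edge tf hd h5.symm h4.symm hp2.symm hp1.symm g1.symm h4.symm h3.symm
      h2.symm h1.symm
    have e3 : Pi1.mk (five g1 hp1 hp2 h4 h5) =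
        (Pi1.mk (five h5.symm h4.symm hp2.symm hp1.symm g1.symm))⁻¹ := by
      rw [Pi1.mk_inv, five_reverse]
    have e4 : Pi1.mk (five h1 h2 h3 h4 h5) =
        (Pi1.mk (five h5.symm h4.symm h3.symm h2.symm h1.symm))⁻¹ := by
      rw [Pi1.mk_inv, five_reverse]
    rw [e3, inv_inv] at e1
    rw [e4, inv_inv]
    rcases e1 with e1 | e1 <;> rcases e2 with e2 | e2 <;> rw [e1, e2] <;> simp

/-- The classes of the closed walks of length five at `x`. -/
def fives (G : SimpleGraph V) (x : V) : Set (Pi1 G x) :=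
  {g | ∃ (a b c d : V) (h1 : G.Adj x a) (h2 : G.Adj a b) (h3 : G.Adj b c) (h4 : G.Adj c d)
    (h5 : G.Adj d x), g = Pi1.mk (five h1 h2 h3 h4 h5)}

/-- The closed walks of length five generate the fundamental group. -/
lemma mem_closure (tf : ∀ a b c, G.Adj a b → G.Adj b c → ¬ G.Adj a c)
    (hd : ∀ v, Fintype.card V < 3 * G.degree v) (x : V) :
    ∀ (n : ℕ) (w : G.Walk x x), w.length = n → Pi1.mk w ∈ Subgroup.closure (fives G x) := by
  intro n
  induction n using Nat.strong_induction_on with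
  | _ n ih =>
    intro w hw
    cases w with
    | nil => exact one_mem _
    | cons h1 p1 =>
      cases p1 with
      | nil => exact absurd h1 (G.irrefl)
      | cons h2 p2 =>
        cases p2 with
        | nil =>
          rw [Pi1.mk_eq_mk.2 (Homotopic.del h1 h2 Walk.nil)]
          exact one_mem _
        | cons h3 p3 =>
          cases p3 with
          | nil => exact absurd h3.symm (tf _ _ _ h1 h2)
          | cons h4 p4 =>
            simp only [Walk.length_cons] at hw
            rcases common tf hd x h4 with ⟨z, hz1, hz2⟩ | ⟨z, hz1, hz2⟩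
            · have key : Pi1.mk (Walk.cons h1 (Walk.cons h2 (Walk.cons h3 (Walk.cons h4 p4)))) =
                  Pi1.mk (five h1 h2 h3 hz2.symm hz1.symm) *
                    Pi1.mk (Walk.cons hz1 (Walk.cons hz2 (Walk.cons h4 p4))) := by
                rw [Pi1.mk_mul_mk, eq_comm, Pi1.mk_eq_mk]
                simp only [five, Walk.cons_append, Walk.nil_append]
                refine Homotopic.cons _ (Homotopic.cons _ (Homotopic.cons _ ?_))
                refine (Homotopic.cons _ (Homotopic.del _ _ _)).trans ?_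
                exact Homotopic.del _ _ _
              rw [key]
              refine mul_mem (Subgroup.subset_closure ⟨_, _, _, _, h1, h2, h3, _, _, rfl⟩) ?_
              refine ih (3 + p4.length) (by omega) _ ?_
              simp only [Walk.length_cons]
              omega
            · have key : Pi1.mk (Walk.cons h1 (Walk.cons h2 (Walk.cons h3 (Walk.cons h4 p4)))) =
                  Pi1.mk (Walk.cons hz1 (Walk.cons hz2 p4)) := by
                rw [Pi1.mk_eq_mk]
                refine (hex tf hd h1 h2 h3 hz1 hz2 h4.symm _).trans ?_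
                exact Homotopic.cons _ (Homotopic.cons _ (Homotopic.del _ _ _))
              rw [key]
              refine ih (2 + p4.length) (by omega) _ ?_
              simp only [Walk.length_cons]
              omega

/-- A triangle-free graph with minimum degree more than `|G| / 3` has cyclic fundamental
groups. -/
theorem isCyclic (tf : ∀ a b c, G.Adj a b → G.Adj b c → ¬ G.Adj a c)
    (hd : ∀ v, Fintype.card V < 3 * G.degree v) (x : V) : IsCyclic (Pi1 G x) := by
  have hall : ∀ g : Pi1 G x, g ∈ Subgroup.closure (fives G x) := by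
    intro g
    obtain ⟨w, rfl⟩ := Pi1.exists_rep g
    exact mem_closure tf hd x _ w rfl
  rcases (fives G x).eq_empty_or_nonempty with he | ⟨g, a, b, c, d, h1, h2, h3, h4, h5, hg⟩
  · refine ⟨⟨1, fun y => ?_⟩⟩
    have := hall y
    rw [he, Subgroup.closure_empty, Subgroup.mem_bot] at this
    rw [this]
    exact ⟨0, zpow_zero _⟩
  · refine ⟨⟨g, fun y => ?_⟩⟩
    have hle : Subgroup.closure (fives G x) ≤ Subgroup.zpowers g := by
      rw [Subgroup.closure_le]
      rintro _ ⟨a', b', c', d', g1, g2, g3, g4, g5, rfl⟩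
      rw [hg]
      rcases five_five tf hd h1 h2 h3 h4 h5 g1 g2 g3 g4 g5 with h | h
      · rw [h]
        exact Subgroup.mem_zpowers _
      · rw [h]
        exact inv_mem (Subgroup.mem_zpowers _)
    exact hle (hall y)

end upper

/-! ### The example -/

/-- The adjacency relation of the example: `0` is joined to `1, 2, 3, 4`; `5` is joined to
`1, 2`; `6` to `3, 4`; `7` to `1, 3`; `8` to `2, 4`; and `5 6`, `7 8` are edges. -/
def exEdges : List (Fin 9 × Fin 9) :=
  [(0, 1), (0, 2), (0, 3), (0, 4), (5, 1), (5, 2), (6, 3), (6, 4), (7, 1), (7, 3), (8, 2),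
    (8, 4), (5, 6), (7, 8)]

/-- The example: a triangle-free graph on `9` vertices with minimum degree `3` whose discrete
fundamental group is not cyclic. -/
def ex : SimpleGraph (Fin 9) where
  Adj u v := (u, v) ∈ exEdges ∨ (v, u) ∈ exEdges
  symm := ⟨fun _ _ h => h.symm⟩
  loopless := ⟨by decide⟩

instance : DecidableRel ex.Adj := fun u v =>
  inferInstanceAs (Decidable ((u, v) ∈ exEdges ∨ (v, u) ∈ exEdges))

/-- The voltage of an edge. -/
def volt (u v : Fin 9) : ZMod 2 × ZMod 2 :=
  (if (u = 5 ∧ v = 6) ∨ (u = 6 ∧ v = 5) then 1 else 0,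
    if (u = 7 ∧ v = 8) ∨ (u = 8 ∧ v = 7) then 1 else 0)

/-- The voltage of a walk. -/
def wvolt : {u v : Fin 9} → ex.Walk u v → ZMod 2 × ZMod 2
  | _, _, Walk.nil => 0
  | u, _, Walk.cons (v := w) _ p => volt u w + wvolt p

lemma wvolt_append {u v w : Fin 9} (p : ex.Walk u v) (q : ex.Walk v w) :
    wvolt (p.append q) = wvolt p + wvolt q := by
  induction p with
  | nil => simp [wvolt]
  | cons h p ih => simp [wvolt, ih, add_assoc]

lemma volt_sub : ∀ a b c b' : Fin 9, ex.Adj a b → ex.Adj b c → ex.Adj a b' → ex.Adj b' c →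
    volt a b + volt b c = volt a b' + volt b' c := by
  decide +kernel

lemma volt_back : ∀ a b : Fin 9, volt a b + volt b a = 0 := by
  decide +kernel

lemma wvolt_move {u v : Fin 9} {p q : ex.Walk u v} (h : Move ex p q) : wvolt p = wvolt q := by
  cases h with
  | sub p hab hbc hab' hbc' q =>
    simp only [wvolt_append, wvolt]
    rw [← add_assoc (volt _ _), volt_sub _ _ _ _ hab hbc hab' hbc', ← add_assoc (volt _ _)]
  | ins p haw hwa q =>
    simp only [wvolt_append, wvolt]
    rw [← add_assoc (volt _ _), volt_back, zero_add]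
  | del p haw hwa q =>
    simp only [wvolt_append, wvolt]
    rw [← add_assoc (volt _ _), volt_back, zero_add]

lemma wvolt_homotopic {u v : Fin 9} {p q : ex.Walk u v} (h : Homotopic p q) :
    wvolt p = wvolt q := by
  induction h with
  | refl => rfl
  | tail _ h2 ih => rw [ih, wvolt_move h2]

/-- The voltage as a homomorphism on the fundamental group. -/
def phi (v : Fin 9) : Pi1 ex v →* Multiplicative (ZMod 2 × ZMod 2) where
  toFun x := Quotient.lift (fun p => Multiplicative.ofAdd (wvolt p))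
    (fun _ _ h => congrArg _ (wvolt_homotopic h)) x
  map_one' := rfl
  map_mul' x y := by
    induction x using Quotient.inductionOn
    induction y using Quotient.inductionOn
    exact congrArg Multiplicative.ofAdd (wvolt_append _ _)

lemma not_cyclic : ¬ IsCyclic (Pi1 ex 0) := by
  rintro ⟨⟨g, hg⟩⟩
  have key : ∀ y : Pi1 ex 0, phi 0 y = 1 ∨ phi 0 y = phi 0 g := by
    intro y
    obtain ⟨k, rfl⟩ := hg y
    simp only [map_zpow]
    have h2 : ∀ t : Multiplicative (ZMod 2 × ZMod 2), t ^ (2 : ℤ) = 1 := by decide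
    rcases Int.even_or_odd' k with ⟨m, rfl | rfl⟩
    · left
      rw [zpow_mul, h2, one_zpow]
    · right
      rw [zpow_add, zpow_mul, h2, one_zpow, one_mul, zpow_one]
  have e1 : ∃ y : Pi1 ex 0, phi 0 y = Multiplicative.ofAdd (1, 0) :=
    ⟨Pi1.mk (Walk.cons (v := 1) (by decide) (Walk.cons (v := 5) (by decide)
      (Walk.cons (v := 6) (by decide) (Walk.cons (v := 3) (by decide)
      (Walk.cons (v := 0) (by decide) Walk.nil))))), by decide⟩
  have e2 : ∃ y : Pi1 ex 0, phi 0 y = Multiplicative.ofAdd (0, 1) :=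
    ⟨Pi1.mk (Walk.cons (v := 1) (by decide) (Walk.cons (v := 7) (by decide)
      (Walk.cons (v := 8) (by decide) (Walk.cons (v := 2) (by decide)
      (Walk.cons (v := 0) (by decide) Walk.nil))))), by decide⟩
  obtain ⟨y1, hy1⟩ := e1
  obtain ⟨y2, hy2⟩ := e2
  have k1 := key y1
  have k2 := key y2
  rw [hy1] at k1
  rw [hy2] at k2
  generalize phi 0 g = t at k1 k2
  revert t
  decide

lemma ex_free : (⊤ : SimpleGraph (Fin 3)).Free ex := by
  rintro ⟨f⟩
  have h : ∀ a b c : Fin 9, ex.Adj a b → ex.Adj b c → ¬ ex.Adj a c := by decide +kernel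
  exact h (f 0) (f 1) (f 2) (f.toHom.map_adj (by decide)) (f.toHom.map_adj (by decide))
    (f.toHom.map_adj (by decide))

lemma ex_minDegree : ex.minDegree = 3 := by decide +kernel

/-! ### The result -/

lemma third_mem : (1 / 3 : ℝ) ∈ admissible (⊤ : SimpleGraph (Fin 3)) := by
  refine ⟨by norm_num, ?_⟩
  intro V _ G _ hfree hdeg v
  classical
  apply isCyclic
  · intro a b c hab hbc hac
    apply hfree
    refine ⟨⟨⟨![a, b, c], ?_⟩, ?_⟩⟩
    · intro i j hij
      fin_cases i <;> fin_cases j <;> simp_all [G.adj_comm]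
    · intro i j hij
      have hab' := hab.ne
      have hbc' := hbc.ne
      have hac' := hac.ne
      fin_cases i <;> fin_cases j <;> simp_all
  · intro v
    have h1 : G.minDegree ≤ G.degree v := G.minDegree_le_degree v
    have h2 : (G.minDegree : ℝ) ≤ G.degree v := by exact_mod_cast h1
    have h3 : (Fintype.card V : ℝ) < 3 * G.degree v := by linarith
    exact_mod_cast h3

theorem result : IsLeast (admissible (⊤ : SimpleGraph (Fin 3))) (1 / 3) ∧
    deltaCyc (⊤ : SimpleGraph (Fin 3)) = 1 / 3 := by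
  have h : IsLeast (admissible (⊤ : SimpleGraph (Fin 3))) (1 / 3) := by
    refine ⟨third_mem, ?_⟩
    rintro α ⟨_, hα⟩
    by_contra hcon
    push Not at hcon
    apply not_cyclic
    refine hα (Fin 9) ex ex_free ?_ 0
    rw [ex_minDegree]
    simp only [Fintype.card_fin]
    norm_num
    linarith
  exact ⟨h, h.csInf_eq⟩

end Pool.Agent.Results.MP_331a15_co.TriangleThreshold
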